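import Pool.Agent.N223.PS.Stm

/-!
Project PS, subtask LE: diamond words can be made longer.  (The lemmas on teeth are copied from
`Pool.Agent.N941.SP.Wig`, to avoid its imports.)
-/

set_option autoImplicit false

namespace Pool.Agent.N31.PS

open Pool.Agent.H122R3.SX Pool.Agent.N941.SP

theorem pos_nonneg {w : W} {i : Fin 2} (h : ∀ l ∈ w, 0 ≤ st l i) : 0 ≤ pos w i := by
  induction w with
  | nil => simp
  | cons l w ih =>
    rw [pos_cons]
    have h1 := h l List.mem_cons_self
    have h2 := ih (fun l hl => h l (List.mem_cons_of_mem _ hl))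
    omega

theorem pos_nonpos {w : W} {i : Fin 2} (h : ∀ l ∈ w, st l i ≤ 0) : pos w i ≤ 0 := by
  induction w with
  | nil => simp
  | cons l w ih =>
    rw [pos_cons]
    have h1 := h l List.mem_cons_self
    have h2 := ih (fun l hl => h l (List.mem_cons_of_mem _ hl))
    omega

theorem pos_replicate (a : ℕ) (l : Fin 4) (i : Fin 2) : pos (List.replicate a l) i = a * st l i := by
  induction a with
  | zero => simp
  | succ a ih => rw [List.replicate_succ, pos_cons, ih]; push_cast; ring

theorem saw_of_monotone {w : W} (f : Fin 4 → ℤ) (u v : ℤ)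
    (hf : ∀ l, f l = u * st l 0 + v * st l 1) (h : ∀ l ∈ w, 1 ≤ f l) : Saw w := by
  intro x hx h0
  have hmem : ∀ l ∈ x, 1 ≤ f l := fun l hl => h l (hx.subset hl)
  have key : ∀ x : W, (∀ l ∈ x, 1 ≤ f l) → (x.length : ℤ) ≤ u * pos x 0 + v * pos x 1 := by
    intro x
    induction x with
    | nil => simp
    | cons l x ih =>
      intro h
      have h1 := ih (fun l hl => h l (List.mem_cons_of_mem _ hl))
      have h2 := h l List.mem_cons_self
      rw [hf] at h2
      rw [pos_cons, pos_cons, List.length_cons]
      push_cast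
      linarith
  have h1 := key x hmem
  have h2 := List.length_pos_of_ne_nil h0
  by_contra hcon
  push Not at hcon
  rw [hcon 0, hcon 1] at h1
  omega

/-- a tooth -/
theorem G_tooth (a : ℕ) : G 2 0 a (([0] ++ List.replicate a 2) ++ ([0] ++ List.replicate a 3)) := by
  have m1 : ∀ l ∈ ([0] ++ List.replicate a 2 : W), l = 0 ∨ l = 2 := by
    intro l hl
    rw [List.mem_append, List.mem_singleton, List.mem_replicate] at hl
    tauto
  have m2 : ∀ l ∈ ([0] ++ List.replicate a 3 : W), l = 0 ∨ l = 3 := by
    intro l hl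
    rw [List.mem_append, List.mem_singleton, List.mem_replicate] at hl
    tauto
  have s1 : Saw ([0] ++ List.replicate a 2 : W) := by
    apply saw_of_monotone (fun l => st l 0 + st l 1) 1 1 (fun l => by ring)
    intro l hl
    rcases m1 l hl with rfl | rfl <;> decide
  have s2 : Saw ([0] ++ List.replicate a 3 : W) := by
    apply saw_of_monotone (fun l => st l 0 - st l 1) 1 (-1) (fun l => by ring)
    intro l hl
    rcases m2 l hl with rfl | rfl <;> decide
  have n1 : ∀ v : W, (∀ l ∈ v, l = 0 ∨ l = 2) → 0 ≤ pos v 0 ∧ 0 ≤ X v := by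
    intro v hv
    constructor
    · apply pos_nonneg
      intro l hl
      rcases hv l hl with rfl | rfl <;> decide
    · apply pos_nonneg
      intro l hl
      rcases hv l hl with rfl | rfl <;> decide
  have n2 : ∀ v : W, (∀ l ∈ v, l = 0 ∨ l = 3) → 0 ≤ pos v 0 ∧ X v ≤ 0 := by
    intro v hv
    constructor
    · apply pos_nonneg
      intro l hl
      rcases hv l hl with rfl | rfl <;> decide
    · apply pos_nonpos
      intro l hl
      rcases hv l hl with rfl | rfl <;> decide
  have p1 : pos ([0] ++ List.replicate a 2 : W) 0 = 1 := by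
    rw [pos_append, pos_replicate]; simp [st]
  have p2 : pos ([0] ++ List.replicate a 3 : W) 0 = 1 := by
    rw [pos_append, pos_replicate]; simp [st]
  have x1 : X ([0] ++ List.replicate a 2 : W) = a := by
    unfold X
    rw [pos_append, pos_replicate]; simp [st]
  have x2 : X ([0] ++ List.replicate a 3 : W) = -a := by
    unfold X
    rw [pos_append, pos_replicate]; simp [st]
  have low1 : ∀ (b : W), (∀ l ∈ ([0] ++ b : W), 0 ≤ st l 0) → ∀ v, v <+: ([0] ++ b : W) → v ≠ [] →
      1 ≤ pos v 0 := by
    intro b hb v hv hv0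
    obtain ⟨l, v', rfl⟩ := List.exists_cons_of_ne_nil hv0
    rw [List.singleton_append, List.cons_prefix_cons] at hv
    obtain ⟨rfl, hv⟩ := hv
    have h1 : 0 ≤ pos v' 0 := pos_nonneg (fun l hl => hb l (by
      rw [List.singleton_append]
      exact List.mem_cons_of_mem _ (hv.subset hl)))
    rw [pos_cons]
    have : st 0 0 = 1 := by decide
    omega
  have low2 := low1 (List.replicate a 3) (fun l hl => by
    rcases m2 l hl with rfl | rfl <;> decide)
  have pre : ∀ v t w : W, v ++ t = w → pos v 0 + pos t 0 = pos w 0 ∧ X v + X t = X w := by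
    rintro v t w rfl
    rw [pos_append, X_append]
    exact ⟨rfl, rfl⟩
  refine ⟨saw_append s1 s2 p1 ?_ low2, ?_, ?_, ?_, ?_⟩
  · rintro v ⟨t, ht⟩
    have h1 := (pre _ _ _ ht).1
    have h2 := (n1 t (fun l hl => m1 l (by rw [← ht]; exact List.mem_append_right _ hl))).1
    omega
  · rw [pos_append, p1, p2]; rfl
  · rw [X_append, x1, x2]; ring
  · intro v hv hv0
    rw [List.append_assoc] at hv
    apply low1 _ _ v hv hv0
    intro l hl
    rw [← List.append_assoc, List.mem_append] at hl
    rcases hl with hl | hl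
    · rcases m1 l hl with rfl | rfl <;> decide
    · rcases m2 l hl with rfl | rfl <;> decide
  · intro v hv
    rcases prefix_append_cases hv with ⟨t, ht⟩ | ⟨p, rfl, ⟨t, ht⟩⟩
    · have h1 := pre _ _ _ ht
      have h2 := n1 t (fun l hl => m1 l (by rw [← ht]; exact List.mem_append_right _ hl))
      have h3 := n1 v (fun l hl => m1 l (by rw [← ht]; exact List.mem_append_left _ hl))
      refine ⟨by omega, ?_⟩
      rw [abs_le]
      constructor <;> omega
    · have h1 := pre _ _ _ ht
      have h2 := n2 t (fun l hl => m2 l (by rw [← ht]; exact List.mem_append_right _ hl))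
      have h3 := n2 p (fun l hl => m2 l (by rw [← ht]; exact List.mem_append_left _ hl))
      rw [pos_append, X_append, p1, x1, abs_le]
      refine ⟨by omega, ?_, ?_⟩ <;> omega

theorem exists_teeth (A h E : ℕ) (hE : E ≤ h * A) :
    ∃ w : W, G (2 * h) 0 A w ∧ w.length = 2 * h + 2 * E := by
  induction h generalizing E with
  | zero =>
    refine ⟨[], ?_, ?_⟩
    · have := G_nil.mono (T' := (A : ℤ)) (by positivity)
      simpa using this
    · rw [Nat.zero_mul] at hE
      simp
      omega
  | succ h ih =>
    obtain ⟨w, hw, hl⟩ := ih (E - min E A) (by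
      rcases Nat.le_total E A with h1 | h1
      · rw [min_eq_left h1]; omega
      · rw [min_eq_right h1]
        rw [Nat.add_mul, one_mul] at hE
        omega)
    have h1 := hw.append ((G_tooth (min E A)).mono (T' := (A : ℤ))
      (by exact_mod_cast min_le_right E A))
    refine ⟨w ++ (([0] ++ List.replicate (min E A) 2) ++ ([0] ++ List.replicate (min E A) 3)),
      ?_, ?_⟩
    · simp only [abs_zero, zero_add, max_self, add_zero] at h1
      have e : 2 * ((h : ℕ) : ℤ) + 2 = 2 * ((h + 1 : ℕ) : ℤ) := by push_cast; ring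
      rw [e] at h1
      exact h1
    · simp only [List.length_append, List.length_replicate, List.length_singleton, hl]
      have := min_le_left E A
      omega


theorem G_rep (s : ℕ) : G (s : ℤ) 0 0 (List.replicate s (0 : Fin 4)) := by
  induction s with
  | zero => simpa using G_nil
  | succ s ih =>
    have h := G_elem.append ih
    simp only [abs_zero, zero_add, max_self, add_zero, List.singleton_append] at h
    rw [List.replicate_succ]
    have e : (1 : ℤ) + (s : ℤ) = ((s + 1 : ℕ) : ℤ) := by push_cast; ring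
    rw [e] at h
    exact h

/-- the word in front -/
theorem exists_front (J E : ℕ) (hE : E ≤ J) :
    ∃ u : W, Saw u ∧ pos u 0 = ((2 * J + 2 : ℕ) : ℤ) ∧ X u = 0 ∧ u.length = 2 * J + 2 + 2 * E ∧
      ∀ p, p <+: u → p ≠ [] → pos p 0 ≤ ((2 * J + 2 : ℕ) : ℤ) ∧ |X p| < pos p 0 := by
  obtain ⟨v, hv, hvl⟩ := exists_teeth 1 J E (by omega)
  have h2 := G_rep 2
  have h := h2.append hv
  refine ⟨List.replicate 2 0 ++ v, h.saw, ?_, ?_, ?_, ?_⟩
  · rw [h.top]; push_cast; ring
  · rw [h.hor]; norm_num
  · rw [List.length_append, List.length_replicate, hvl]; omega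
  · intro p hp hp0
    refine ⟨?_, ?_⟩
    · have := (h.high p hp).1
      push_cast at this ⊢
      omega
    · rcases prefix_append_cases hp with hp | ⟨q, rfl, hq⟩
      · have h3 := (h2.high p hp).2
        have h4 := h2.low p hp hp0
        omega
      · have h3 := (hv.high q hq).2
        have h4 : 0 ≤ pos q 0 := by
          by_cases hq0 : q = []
          · rw [hq0]; simp
          · have := hv.low q hq hq0
            omega
        rw [pos_append, X_append, h2.top, h2.hor, zero_add]
        push_cast
        push_cast at h3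
        omega

theorem dmpos {Y : ℤ} {w : W} (hY : 1 ≤ Y) (h : Dm Y w) {v : W} (hv : v <+: w) :
    (v ≠ [] → 1 ≤ pos v 0) ∧ pos v 0 ≤ Y ∧ 2 * |X v| + |2 * pos v 0 - Y| ≤ Y := by
  by_cases h0 : v = []
  · subst h0
    refine ⟨fun h => absurd rfl h, by simp; omega, ?_⟩
    simp only [pos_nil, X_nil, abs_zero, mul_zero, zero_add, zero_sub, abs_neg]
    rw [abs_of_nonneg (by omega)]
  · by_cases h1 : v = w
    · subst h1
      rw [h.top, h.hor]
      refine ⟨fun _ => hY, le_rfl, ?_⟩
      simp only [abs_zero, mul_zero, zero_add]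
      rw [abs_of_nonneg (by omega)]
      omega
    · have h2 := h.mid v hv h0 h1
      have h3 := abs_nonneg (X v)
      have h4 := neg_abs_le (2 * pos v 0 - Y)
      have h5 := le_abs_self (2 * pos v 0 - Y)
      refine ⟨fun _ => by omega, by omega, by omega⟩

theorem dmlong {Y : ℤ} (hY : 1 ≤ Y) {s : ℕ} (hs : 1 ≤ s) {u w : W} (hu : Saw u)
    (hu0 : pos u 0 = (s : ℤ)) (hu1 : X u = 0)
    (hup : ∀ p, p <+: u → p ≠ [] → pos p 0 ≤ (s : ℤ) ∧ |X p| < pos p 0) (hw : Dm Y w) :
    Dm (Y + 2 * (s : ℤ)) (u ++ w ++ List.replicate s 0) := by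
  have hr := G_rep s
  have hup' : ∀ p, p <+: u → pos p 0 ≤ (s : ℤ) := by
    intro p hp
    by_cases h : p = []
    · rw [h]; simp
    · exact (hup p hp h).1
  have h1 : Saw (u ++ w) := saw_append hu hw.saw hu0 hup' (fun v hv hv0 => (dmpos hY hw hv).1 hv0)
  have h2 : ∀ p, p <+: u ++ w → pos p 0 ≤ (s : ℤ) + Y := by
    intro p hp
    rcases prefix_append_cases hp with hp | ⟨q, rfl, hq⟩
    · have := hup' p hp
      omega
    · rw [pos_append, hu0]
      have := (dmpos hY hw hq).2.1
      omega
  have h3 : pos (u ++ w) 0 = (s : ℤ) + Y := by rw [pos_append, hu0, hw.top]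
  refine ⟨saw_append h1 hr.saw h3 h2 hr.low, ?_, ?_, ?_⟩
  · rw [pos_append, h3, hr.top]; ring
  · rw [X_append, X_append, hu1, hw.hor, hr.hor]; norm_num
  · intro v hv hv0 hvw
    have hs' : (1 : ℤ) ≤ (s : ℤ) := by exact_mod_cast hs
    rcases prefix_append_cases hv with hv | ⟨q, rfl, hq⟩
    · rcases prefix_append_cases hv with hv | ⟨q, rfl, hq⟩
      · obtain ⟨h4, h5⟩ := hup v hv hv0
        rw [abs_of_nonpos (by omega : 2 * pos v 0 - (Y + 2 * (s : ℤ)) ≤ 0)]
        omega
      · have h4 := (dmpos hY hw hq).2.2
        rw [pos_append, X_append, hu0, hu1, zero_add]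
        rw [show 2 * ((s : ℤ) + pos q 0) - (Y + 2 * (s : ℤ)) = 2 * pos q 0 - Y by ring]
        omega
    · have h5 := hr.high q hq
      have h6 : X q = 0 := by
        have := abs_nonneg (X q)
        exact abs_eq_zero.1 (by omega)
      have h7 : 0 ≤ pos q 0 := by
        by_cases hq0 : q = []
        · rw [hq0]; simp
        · have := hr.low q hq hq0
          omega
      have h8 : pos q 0 < s := by
        obtain ⟨t, ht⟩ := hq
        have ht0 : t ≠ [] := by
          rintro rfl
          rw [List.append_nil] at ht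
          exact hvw (by rw [ht])
        have h9 : pos q 0 + pos t 0 = s := by rw [← pos_append, ht, hr.top]
        obtain ⟨h10, h11, h12⟩ := List.append_eq_replicate_iff.1 ht
        rw [h12, pos_replicate] at h9
        have h13 : 0 < t.length := List.length_pos_of_ne_nil ht0
        have h14 : st 0 0 = 1 := by decide
        rw [h14] at h9
        omega
      rw [pos_append, X_append, h3, X_append, hu1, hw.hor, h6]
      simp only [add_zero, abs_zero, mul_zero, zero_add]
      rw [abs_of_nonneg (by omega)]
      omega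

/-- **diamond words can be made longer** -/
theorem le_dm : Pool.Agent.N223.PS.S_LE := by
  classical
  intro Y n J E hY hE
  obtain ⟨u, hu, hu0, hu1, hul, hup⟩ := exists_front J E hE
  unfold dm
  apply Finset.card_le_card_of_injOn (fun w => u ++ w ++ List.replicate (2 * J + 2) 0)
  · intro w hw
    rw [Finset.mem_coe, mem_fs] at hw ⊢
    refine ⟨dmlong hY (by omega) hu hu0 hu1 hup hw.1, ?_⟩
    simp only [List.length_append, List.length_replicate, hul, hw.2]
    omega
  · intro w _ w' _ h
    simp only at h
    have h1 := List.append_cancel_right h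
    exact List.append_cancel_left h1

end Pool.Agent.N31.PS
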